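import Mathlib

/-! Definition for MP_77a645_al. -/

set_option autoImplicit false

namespace Pool.Agent.Brachy56

/-- A map `f : R → S` between rings is a brachymorphism if `f (1 + x) = 1 + f x` and
`f (x * y) = f x * f y` for all `x`, `y`. -/
def IsBrachymorphism {R S : Type*} [Ring R] [Ring S] (f : R → S) : Prop :=
  (∀ x : R, f (1 + x) = 1 + f x) ∧ ∀ x y : R, f (x * y) = f x * f y

end Pool.Agent.Brachy56
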