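import Mathlib

/-!
Operators on two-sided sequences over a field whose matrix is banded above: an operator `T` with
`Lead T n S` has the entry `S i` in place `(i, i + n)` and zeros to the right of it.  If no `S i`
vanishes, `T` is bijective on the sequences supported on `[j, ∞)`, up to the shift by `n`.
-/

set_option autoImplicit false

namespace Pool.Agent.Brachy56

variable {K : Type*} [Field K]

/-- `v` is supported on `[j, ∞)` -/
def Supp (j : ℤ) (v : ℤ → K) : Prop := ∀ i < j, v i = 0

/-- the `i`-th entry of `T v` only involves `v` up to place `i + n`, with coefficient `S i` there -/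
def Lead (T : Module.End K (ℤ → K)) (n : ℤ) (S : ℤ → K) : Prop :=
  ∀ (v : ℤ → K) (i : ℤ), (∀ i' < i + n, v i' = 0) → T v i = S i * v (i + n)

theorem Supp.mono {j j' : ℤ} {v : ℤ → K} (h : Supp j v) (hj : j' ≤ j) : Supp j' v :=
  fun i hi => h i (lt_of_lt_of_le hi hj)

theorem Supp.add {j : ℤ} {v w : ℤ → K} (hv : Supp j v) (hw : Supp j w) : Supp j (v + w) :=
  fun i hi => by simp [hv i hi, hw i hi]

theorem Supp.sub {j : ℤ} {v w : ℤ → K} (hv : Supp j v) (hw : Supp j w) : Supp j (v - w) :=
  fun i hi => by simp [hv i hi, hw i hi]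

theorem Supp.smul {j : ℤ} {v : ℤ → K} (hv : Supp j v) (c : K) : Supp j (c • v) :=
  fun i hi => by simp [hv i hi]

theorem Supp.zero (j : ℤ) : Supp j (0 : ℤ → K) := fun _ _ => rfl

variable {T : Module.End K (ℤ → K)} {n : ℤ} {S : ℤ → K}

/-- the operator moves supports at most `n` places down -/
theorem Lead.supp (hT : Lead T n S) {j : ℤ} {v : ℤ → K} (hv : Supp j v) : Supp (j - n) (T v) := by
  intro i hi
  rw [hT v i (fun i' hi' => hv i' (by omega)), hv (i + n) (by omega), mul_zero]

/-- injectivity: if `T v` is supported on `[j, ∞)` then `v` is supported on `[j + n, ∞)` -/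
theorem Lead.inj (hT : Lead T n S) (hS : ∀ i, S i ≠ 0) {j j0 : ℤ} {v : ℤ → K}
    (hv : Supp j0 v) (hw : Supp j (T v)) : Supp (j + n) v := by
  have key : ∀ k : ℕ, ∀ i, i < j + n → i < j0 + k → v i = 0 := by
    intro k
    induction k with
    | zero =>
      intro i _ hi
      exact hv i (by simpa using hi)
    | succ k ih =>
      intro i hi hi2
      have h1 := hT v (i - n) (fun i' hi' => ih i' (by omega) (by push_cast at hi2; omega))
      rw [hw (i - n) (by omega)] at h1
      have h2 : i - n + n = i := by omega
      rw [h2] at h1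
      rcases mul_eq_zero.1 h1.symm with h3 | h3
      · exact absurd h3 (hS _)
      · exact h3
  intro i hi
  exact key (i - j0 + 1).toNat i hi (by omega)

/-- partial solutions of `T v = w` -/
noncomputable def sol (T : Module.End K (ℤ → K)) (n : ℤ) (S : ℤ → K) (j : ℤ) (w : ℤ → K) :
    ℕ → (ℤ → K)
  | 0 => 0
  | k + 1 => sol T n S j w k +
      Pi.single (j + n + k) ((w (j + k) - T (sol T n S j w k) (j + k)) / S (j + k))

theorem sol_high (j : ℤ) (w : ℤ → K) (k : ℕ) : ∀ i, (j + n + k ≤ i ∨ i < j + n) →
    sol T n S j w k i = 0 := by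
  induction k with
  | zero => intro i _; rfl
  | succ k ih =>
    intro i hi
    have h1 : i ≠ j + n + k := by push_cast at hi; omega
    simp only [sol, Pi.add_apply, Pi.single_apply, if_neg h1, add_zero]
    exact ih i (by push_cast at hi; omega)

theorem sol_stable (j : ℤ) (w : ℤ → K) (k m : ℕ) (i : ℤ) (hi : i < j + n + k) :
    sol T n S j w (k + m) i = sol T n S j w k i := by
  induction m with
  | zero => rfl
  | succ m ih =>
    have h1 : i ≠ j + n + ((k + m : ℕ) : ℤ) := by push_cast; omega
    have h2 : k + (m + 1) = (k + m) + 1 := rfl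
    rw [h2]
    simp only [sol, Pi.add_apply, Pi.single_apply, if_neg h1, add_zero]
    exact ih

theorem sol_spec (hT : Lead T n S) (hS : ∀ i, S i ≠ 0) (j : ℤ) (w : ℤ → K) (hw : Supp j w)
    (k : ℕ) : ∀ i, i < j + k → T (sol T n S j w k) i = w i := by
  induction k with
  | zero =>
    intro i hi
    simp only [sol, map_zero, Pi.zero_apply]
    exact (hw i (by simpa using hi)).symm
  | succ k ih =>
    intro i hi
    simp only [sol, map_add, Pi.add_apply]
    set c := (w (j + k) - T (sol T n S j w k) (j + k)) / S (j + k) with hc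
    have h1 : T (Pi.single (j + n + k) c) i = S i * (Pi.single (j + n + k) c : ℤ → K) (i + n) := by
      apply hT
      intro i' hi'
      rw [Pi.single_apply, if_neg (by push_cast at hi; omega)]
    rw [h1, Pi.single_apply]
    by_cases h2 : i = j + k
    · subst h2
      rw [if_pos (by omega), hc, mul_div_cancel₀ _ (hS _)]
      ring
    · rw [if_neg (by omega), mul_zero, add_zero]
      exact ih i (by push_cast at hi; omega)

/-- surjectivity -/
theorem Lead.surj (hT : Lead T n S) (hS : ∀ i, S i ≠ 0) {j : ℤ} {w : ℤ → K} (hw : Supp j w) :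
    ∃ v, Supp (j + n) v ∧ T v = w := by
  refine ⟨fun i => sol T n S j w ((i - (j + n)).toNat + 1) i, ?_, ?_⟩
  · intro i hi
    exact sol_high j w _ i (Or.inr hi)
  · set v : ℤ → K := fun i => sol T n S j w ((i - (j + n)).toNat + 1) i with hv
    have hlow : ∀ i, i < j + n → v i = 0 := fun i hi => sol_high j w _ i (Or.inr hi)
    have hag : ∀ (k : ℕ) (i : ℤ), i < j + n + k → v i = sol T n S j w k i := by
      intro k i hi
      by_cases h1 : i < j + n
      · rw [hlow i h1, sol_high j w k i (Or.inr h1)]
      · have h2 : ((i - (j + n)).toNat + 1) ≤ k := by omega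
        obtain ⟨m, hm⟩ := Nat.exists_eq_add_of_le h2
        rw [hv]
        simp only
        rw [hm, sol_stable j w _ m i (by push_cast; omega)]
    funext i
    by_cases h1 : i < j
    · have h2 : T v i = S i * v (i + n) := hT v i (fun i' hi' => hlow i' (by omega))
      rw [h2, hlow (i + n) (by omega), mul_zero, hw i h1]
    · have h3 := sol_spec hT hS j w hw ((i - j).toNat + 1) i (by push_cast; omega)
      rw [← h3]
      have h4 : T (v - sol T n S j w ((i - j).toNat + 1)) i = 0 := by
        rw [hT _ i (fun i' hi' => by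
          rw [Pi.sub_apply, hag ((i - j).toNat + 1) i' (by push_cast; omega), sub_self])]
        rw [Pi.sub_apply, hag ((i - j).toNat + 1) (i + n) (by push_cast; omega), sub_self, mul_zero]
      rw [map_sub, Pi.sub_apply, sub_eq_zero] at h4
      exact h4

end Pool.Agent.Brachy56
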