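import Mathlib
import Pool.Agent.Lib_helper56.Brachy.Op

/-!
The free algebra `k⟨x, y⟩` over a commutative domain `k` acts on sequences over
`K = Frac k[z_i : i ∈ ℤ]`: `(x v)_i = z_i v_{i+1}`, `(y v)_i = v_{i+1}`.
-/

set_option autoImplicit false
set_option linter.unusedSectionVars false

namespace Pool.Agent.Brachy56

universe u

variable (k : Type u) [CommRing k] [IsDomain k]

/-- the polynomial ring on the variables `z_i`, `i ∈ ℤ` -/
abbrev P : Type u := MvPolynomial ℤ k

/-- its field of fractions -/
abbrev K : Type u := FractionRing (P k)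

/-- the free algebra on two generators -/
abbrev A : Type u := FreeAlgebra k (Fin 2)

/-- the inclusion `k → K` -/
noncomputable def ik : k →+* K k := (algebraMap (P k) (K k)).comp MvPolynomial.C

/-- weight of the generator `a` in row `i` -/
noncomputable def wt (a : Fin 2) (i : ℤ) : K k :=
  if a = 0 then algebraMap (P k) (K k) (MvPolynomial.X i) else 1

/-- the operator of the generator `a` -/
noncomputable def gen (a : Fin 2) : Module.End (K k) (ℤ → K k) where
  toFun v := fun i => wt k a i * v (i + 1)
  map_add' v w := by funext i; simp [mul_add]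
  map_smul' c v := by funext i; simp [mul_left_comm]

/-- the representation -/
noncomputable def rho : A k →ₐ[k] Module.End (K k) (ℤ → K k) := FreeAlgebra.lift k (gen k)

/-- the constant term -/
noncomputable def eps : A k →ₐ[k] k := FreeAlgebra.lift k (fun _ => 0)

/-- the constant term as an element of `K` -/
noncomputable def ep (r : A k) : K k := ik k (eps k r)

/-- the basis vector `e_{-1}` -/
noncomputable def e0 : ℤ → K k := Pi.single (-1) 1

/-- `1` if the generator is `y`, `0` if it is `x` -/
noncomputable def isy (a : Fin 2) : K k := if a = 0 then 0 else 1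

/-- auxiliary operators, see `PhiL_apply` -/
noncomputable def genL (a : Fin 2) : Module.End (K k) (K k × (ℤ → K k)) where
  toFun p := (isy k a * p.2 0, gen k a p.2)
  map_add' p q := by simp [mul_add]
  map_smul' c p := by simp [mul_left_comm]

/-- auxiliary operators, see `PhiC_apply` -/
noncomputable def genC (a : Fin 2) : Module.End (K k) ((ℤ → K k) × K k) where
  toFun p := (gen k a p.1 + (p.2 * isy k a) • e0 k, 0)
  map_add' p q := by
    ext1
    · simp only [Prod.fst_add, map_add, Prod.snd_add, add_mul, add_smul]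
      abel
    · simp
  map_smul' c p := by
    ext1
    · simp only [Prod.smul_fst, map_smul, Prod.smul_snd, smul_eq_mul, RingHom.id_apply, smul_add,
        smul_smul, mul_assoc]
    · simp

noncomputable def PhiL : A k →ₐ[k] Module.End (K k) (K k × (ℤ → K k)) :=
  FreeAlgebra.lift k (genL k)

noncomputable def PhiC : A k →ₐ[k] Module.End (K k) ((ℤ → K k) × K k) :=
  FreeAlgebra.lift k (genC k)

/-- `lam r v` is the `0`-th entry of `L(r) v`, where `L(r)` is the left `y`-cofactor of `r` -/
noncomputable def lam (r : A k) (v : ℤ → K k) : K k := (PhiL k r (0, v)).1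

/-- `gam r` is `C(r) e_{-1}`, where `C(r)` is the right `y`-cofactor of `r` -/
noncomputable def gam (r : A k) : ℤ → K k := (PhiC k r (0, 1)).1

variable {k}

theorem rho_ι (a : Fin 2) : rho k (FreeAlgebra.ι k a) = gen k a := FreeAlgebra.lift_ι_apply _ _

theorem ep_ι (a : Fin 2) : ep k (FreeAlgebra.ι k a) = 0 := by
  have : eps k (FreeAlgebra.ι k a) = 0 := FreeAlgebra.lift_ι_apply _ _
  rw [ep, this, map_zero]

theorem ep_mul (r s : A k) : ep k (r * s) = ep k r * ep k s := by simp [ep]

theorem ep_add (r s : A k) : ep k (r + s) = ep k r + ep k s := by simp [ep]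

theorem ep_one : ep k 1 = 1 := by simp [ep]

theorem ik_smul (c : k) (x : K k) : c • x = ik k c * x := by
  have h1 : algebraMap k (K k) c = ik k c := by
    rw [IsScalarTower.algebraMap_apply k (P k) (K k)]; rfl
  rw [Algebra.smul_def, h1]

theorem ep_k (c : k) : ep k (algebraMap k (A k) c) = ik k c := by
  simp only [ep, AlgHom.commutes]; rfl

theorem PhiL_apply (r : A k) : ∀ (c : K k) (v : ℤ → K k),
    PhiL k r (c, v) = (ep k r * c + lam k r v, rho k r v) := by
  induction r using FreeAlgebra.induction with
  | grade0 n =>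
    intro c v
    rw [AlgHom.commutes, AlgHom.commutes, ep_k, lam, AlgHom.commutes, Module.algebraMap_end_apply,
      Module.algebraMap_end_apply, Module.algebraMap_end_apply, Prod.smul_mk, Prod.smul_mk,
      smul_zero, add_zero, ik_smul]
  | grade1 a =>
    intro c v
    simp only [lam, rho_ι, ep_ι, PhiL, FreeAlgebra.lift_ι_apply, genL]
    simp
  | mul a b ha hb =>
    intro c v
    have h1 : ∀ (c : K k) (v : ℤ → K k), PhiL k (a * b) (c, v) = PhiL k a (PhiL k b (c, v)) := by
      intro c v; rw [map_mul]; rfl
    have h2 : lam k (a * b) v = ep k a * lam k b v + lam k a (rho k b v) := by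
      show (PhiL k (a * b) (0, v)).1 = _
      rw [h1, hb, ha, mul_zero, zero_add]
    rw [h1, hb, ha, h2, ep_mul, map_mul]
    ext1
    · ring
    · rfl
  | add a b ha hb =>
    intro c v
    have h1 : ∀ (c : K k) (v : ℤ → K k),
        PhiL k (a + b) (c, v) = PhiL k a (c, v) + PhiL k b (c, v) := by
      intro c v; rw [map_add]; rfl
    have h2 : lam k (a + b) v = lam k a v + lam k b v := by
      show (PhiL k (a + b) (0, v)).1 = _
      rw [h1]; rfl
    rw [h1, hb, ha, h2, ep_add, map_add]
    ext1
    · show ep k a * c + lam k a v + (ep k b * c + lam k b v) = _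
      ring
    · rfl

theorem PhiC_apply (r : A k) : ∀ (v : ℤ → K k) (c : K k),
    PhiC k r (v, c) = (rho k r v + c • gam k r, ep k r * c) := by
  induction r using FreeAlgebra.induction with
  | grade0 n =>
    intro v c
    rw [AlgHom.commutes, AlgHom.commutes, ep_k, gam, AlgHom.commutes, Module.algebraMap_end_apply,
      Module.algebraMap_end_apply, Module.algebraMap_end_apply, Prod.smul_mk, Prod.smul_mk,
      smul_zero, smul_zero, add_zero, ik_smul]
  | grade1 a =>
    intro v c
    simp only [gam, rho_ι, ep_ι, PhiC, FreeAlgebra.lift_ι_apply, genC]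
    simp [smul_smul]
  | mul a b ha hb =>
    intro v c
    have h1 : ∀ (v : ℤ → K k) (c : K k), PhiC k (a * b) (v, c) = PhiC k a (PhiC k b (v, c)) := by
      intro v c; rw [map_mul]; rfl
    have h2 : gam k (a * b) = rho k a (gam k b) + ep k b • gam k a := by
      show (PhiC k (a * b) (0, 1)).1 = _
      rw [h1, hb, ha, map_zero, zero_add, one_smul, mul_one]
    rw [h1, hb, ha, h2, ep_mul, map_mul]
    ext1
    · show rho k a (rho k b v + c • gam k b) + (ep k b * c) • gam k a
        = rho k a (rho k b v) + c • (rho k a (gam k b) + ep k b • gam k a)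
      rw [map_add, map_smul, smul_add, smul_smul, mul_comm c, add_assoc]
    · show ep k a * (ep k b * c) = _
      ring
  | add a b ha hb =>
    intro v c
    have h1 : ∀ (v : ℤ → K k) (c : K k),
        PhiC k (a + b) (v, c) = PhiC k a (v, c) + PhiC k b (v, c) := by
      intro v c; rw [map_add]; rfl
    have h2 : gam k (a + b) = gam k a + gam k b := by
      show (PhiC k (a + b) (0, 1)).1 = _
      rw [h1]; rfl
    rw [h1, hb, ha, h2, ep_add, map_add]
    ext1
    · show rho k a v + c • gam k a + (rho k b v + c • gam k b)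
        = rho k a v + rho k b v + c • (gam k a + gam k b)
      rw [smul_add]
      abel
    · show ep k a * c + ep k b * c = _
      ring

/-- `L(rs) = r(0) L(s) + L(r) s` -/
theorem lam_mul (r s : A k) (v : ℤ → K k) :
    lam k (r * s) v = ep k r * lam k s v + lam k r (rho k s v) := by
  have h1 : PhiL k (r * s) (0, v) = PhiL k r (PhiL k s (0, v)) := by rw [map_mul]; rfl
  have h2 : lam k (r * s) v = (PhiL k (r * s) (0, v)).1 := rfl
  rw [h2, h1, PhiL_apply s, PhiL_apply r]
  simp

/-- `C(rs) = r C(s) + s(0) C(r)` -/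
theorem gam_mul (r s : A k) : gam k (r * s) = rho k r (gam k s) + ep k s • gam k r := by
  have h1 : PhiC k (r * s) (0, 1) = PhiC k r (PhiC k s (0, 1)) := by rw [map_mul]; rfl
  have h2 : gam k (r * s) = (PhiC k (r * s) (0, 1)).1 := rfl
  rw [h2, h1, PhiC_apply s, PhiC_apply r]
  simp

theorem lam_add (r s : A k) (v : ℤ → K k) : lam k (r + s) v = lam k r v + lam k s v := by
  have h1 : PhiL k (r + s) (0, v) = PhiL k r (0, v) + PhiL k s (0, v) := by rw [map_add]; rfl
  show (PhiL k (r + s) (0, v)).1 = _
  rw [h1]; rfl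

theorem gam_add (r s : A k) : gam k (r + s) = gam k r + gam k s := by
  have h1 : PhiC k (r + s) (0, 1) = PhiC k r (0, 1) + PhiC k s (0, 1) := by rw [map_add]; rfl
  show (PhiC k (r + s) (0, 1)).1 = _
  rw [h1]; rfl

theorem lam_vadd (r : A k) (v w : ℤ → K k) : lam k r (v + w) = lam k r v + lam k r w := by
  have : ((0 : K k), v + w) = (0, v) + (0, w) := by simp
  simp only [lam]
  rw [this, map_add]; rfl

theorem lam_vsmul (r : A k) (c : K k) (v : ℤ → K k) : lam k r (c • v) = c * lam k r v := by
  have : ((0 : K k), c • v) = c • ((0 : K k), v) := by simp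
  simp only [lam]
  rw [this, map_smul]; rfl

theorem lam_vsub (r : A k) (v w : ℤ → K k) : lam k r (v - w) = lam k r v - lam k r w := by
  have : ((0 : K k), v - w) = (0, v) - (0, w) := by simp
  simp only [lam]
  rw [this, map_sub]; rfl

theorem lam_k (n : k) (v : ℤ → K k) : lam k (algebraMap k (A k) n) v = 0 := by
  rw [lam, AlgHom.commutes, Module.algebraMap_end_apply, Prod.smul_mk, smul_zero]

theorem gam_k (n : k) : gam k (algebraMap k (A k) n) = 0 := by
  rw [gam, AlgHom.commutes, Module.algebraMap_end_apply, Prod.smul_mk, smul_zero]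

theorem lam_ι (a : Fin 2) (v : ℤ → K k) : lam k (FreeAlgebra.ι k a) v = isy k a * v 0 := by
  simp [lam, PhiL, FreeAlgebra.lift_ι_apply, genL]

theorem gam_ι (a : Fin 2) : gam k (FreeAlgebra.ι k a) = isy k a • e0 k := by
  simp [gam, PhiC, FreeAlgebra.lift_ι_apply, genC]

/-- sequences vanishing in places `≥ 0` -/
def Neg (v : ℤ → K k) : Prop := ∀ i, 0 ≤ i → v i = 0

theorem rho_neg (r : A k) : ∀ v, Neg v → Neg (rho k r v) ∧ lam k r v = 0 := by
  induction r using FreeAlgebra.induction with
  | grade0 n =>
    intro v hv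
    refine ⟨?_, lam_k n v⟩
    intro i hi
    rw [AlgHom.commutes, Module.algebraMap_end_apply, Pi.smul_apply, hv i hi, smul_zero]
  | grade1 a =>
    intro v hv
    rw [rho_ι, lam_ι]
    refine ⟨?_, by rw [hv 0 le_rfl, mul_zero]⟩
    intro i hi
    show wt k a i * v (i + 1) = 0
    rw [hv (i + 1) (by omega), mul_zero]
  | mul a b ha hb =>
    intro v hv
    have h1 := hb v hv
    have h2 := ha _ h1.1
    refine ⟨?_, ?_⟩
    · rw [map_mul]; exact h2.1
    · rw [lam_mul, h1.2, h2.2]; simp
  | add a b ha hb =>
    intro v hv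
    have h1 := hb v hv
    have h2 := ha v hv
    refine ⟨?_, ?_⟩
    · rw [map_add]
      intro i hi
      show rho k a v i + rho k b v i = 0
      rw [h1.1 i hi, h2.1 i hi, add_zero]
    · rw [lam_add, h1.2, h2.2, add_zero]

theorem gam_neg (r : A k) : Neg (gam k r) := by
  induction r using FreeAlgebra.induction with
  | grade0 n => rw [gam_k]; intro i _; rfl
  | grade1 a =>
    rw [gam_ι]
    intro i hi
    have : i ≠ -1 := by omega
    simp [e0, this]
  | mul a b ha hb =>
    rw [gam_mul]
    intro i hi
    have h1 := (rho_neg a _ hb).1 i hi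
    simp only [Pi.add_apply, Pi.smul_apply, h1, ha i hi, smul_zero, add_zero]
  | add a b ha hb =>
    rw [gam_add]
    intro i hi
    rw [Pi.add_apply, ha i hi, hb i hi, add_zero]

/-! ### words -/

variable (k) in
/-- the element of the free algebra given by a word -/
noncomputable def wd (l : List (Fin 2)) : A k := (l.map (FreeAlgebra.ι k)).prod

theorem wd_nil : wd k [] = 1 := rfl

theorem wd_cons (a : Fin 2) (l : List (Fin 2)) : wd k (a :: l) = FreeAlgebra.ι k a * wd k l := by
  simp [wd]

/-- exponent of the weight of a word in row `i` -/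
noncomputable def ex : List (Fin 2) → ℤ → (ℤ →₀ ℕ)
  | [], _ => 0
  | a :: l, i => (if a = 0 then Finsupp.single i 1 else 0) + ex l (i + 1)

variable (k) in
/-- weight of a word in row `i` -/
noncomputable def wtl : List (Fin 2) → ℤ → K k
  | [], _ => 1
  | a :: l, i => wt k a i * wtl l (i + 1)

theorem wtl_eq (l : List (Fin 2)) :
    ∀ i, wtl k l i = algebraMap (P k) (K k) (MvPolynomial.monomial (ex l i) 1) := by
  induction l with
  | nil => intro i; simp [wtl, ex]
  | cons a l ih =>
    intro i
    rw [wtl, ih, wt, ex]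
    by_cases h : a = 0
    · rw [if_pos h, if_pos h, ← map_mul, MvPolynomial.X, MvPolynomial.monomial_mul, one_mul]
    · rw [if_neg h, if_neg h, one_mul, zero_add]

theorem ex_low (l : List (Fin 2)) : ∀ i j, j < i → ex l i j = 0 := by
  induction l with
  | nil => intro i j _; rfl
  | cons a l ih =>
    intro i j hj
    rw [ex, Finsupp.add_apply, ih (i + 1) j (by omega)]
    by_cases h : a = 0
    · simp [h, show i ≠ j by omega]
    · simp [h]

theorem ex_inj (l : List (Fin 2)) : ∀ (l' : List (Fin 2)) (i : ℤ), l.length = l'.length →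
    ex l i = ex l' i → l = l' := by
  induction l with
  | nil =>
    intro l' i h _
    exact (List.length_eq_zero_iff.1 h.symm).symm
  | cons a l ih =>
    intro l' i hl he
    cases l' with
    | nil => simp at hl
    | cons a' l' =>
      have h0 := DFunLike.congr_fun he i
      simp only [ex, Finsupp.add_apply, ex_low _ (i + 1) i (by omega), add_zero] at h0
      have ha : a = a' := by
        by_cases h1 : a = 0 <;> by_cases h2 : a' = 0
        · rw [h1, h2]
        · simp [h1, h2] at h0
        · simp [h1, h2] at h0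
        · have h3 : ∀ b : Fin 2, b ≠ 0 → b = 1 := by decide
          rw [h3 a h1, h3 a' h2]
      subst ha
      simp only [ex, add_right_inj] at he
      rw [ih l' (i + 1) (by simpa using hl) he]

theorem rho_wd (l : List (Fin 2)) : ∀ (v : ℤ → K k) (i : ℤ),
    rho k (wd k l) v i = wtl k l i * v (i + l.length) := by
  induction l with
  | nil => intro v i; simp [wd_nil, wtl]
  | cons a l ih =>
    intro v i
    rw [wd_cons, map_mul, rho_ι]
    show wt k a i * (rho k (wd k l) v) (i + 1) = _
    rw [ih, wtl, List.length_cons]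
    push_cast
    rw [mul_assoc]
    congr 3
    ring

theorem lam_wd (l : List (Fin 2)) (v : ℤ → K k) (hv : Supp (l.length : ℤ) v) :
    lam k (wd k l) v = 0 := by
  cases l with
  | nil =>
    have := lam_k (k := k) 1 v
    rwa [map_one] at this
  | cons a l =>
    rw [wd_cons, lam_mul, ep_ι, lam_ι, rho_wd, hv _ (by simp)]
    simp

theorem gam_wd (l : List (Fin 2)) : Supp (-(l.length : ℤ)) (gam k (wd k l)) := by
  induction l with
  | nil =>
    have := gam_k (k := k) 1
    rw [map_one] at this
    rw [wd_nil, this]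
    exact Supp.zero _
  | cons a l ih =>
    rw [wd_cons, gam_mul, rho_ι, gam_ι]
    refine Supp.add ?_ (Supp.smul (Supp.smul ?_ _) _)
    · intro i hi
      show wt k a i * gam k (wd k l) (i + 1) = 0
      rw [ih (i + 1) (by simp at hi; omega), mul_zero]
    · intro i hi
      have : i ≠ -1 := by simp at hi; omega
      simp [e0, this]

theorem exists_words (r : A k) : ∃ (s : Finset (List (Fin 2))) (c : List (Fin 2) → k),
    (∀ l ∈ s, c l ≠ 0) ∧ r = ∑ l ∈ s, algebraMap k (A k) (c l) * wd k l := by
  set B := FreeAlgebra.basisFreeMonoid k (Fin 2) with hB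
  refine ⟨(B.repr r).support, fun l => B.repr r l, fun l hl => Finsupp.mem_support_iff.1 hl, ?_⟩
  have h1 := B.linearCombination_repr r
  rw [Finsupp.linearCombination_apply, Finsupp.sum] at h1
  have h2 : ∀ l : FreeMonoid (Fin 2), B l = wd k l := by
    intro l
    simp [hB, FreeAlgebra.basisFreeMonoid, Module.Basis.map_apply,
      FreeAlgebra.equivMonoidAlgebraFreeMonoid, FreeMonoid.lift_apply, wd]
    rfl
  conv_lhs => rw [← h1]
  exact Finset.sum_congr rfl (fun l _ => by rw [h2, Algebra.smul_def])

/-- leading coefficients of a sum of words -/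
theorem lead_ne_zero (s : Finset (List (Fin 2))) (c : List (Fin 2) → k) (n : ℕ)
    (l0 : List (Fin 2)) (hl0 : l0 ∈ s) (hn : l0.length = n) (hc : c l0 ≠ 0) (i : ℤ) :
    (∑ l ∈ s with l.length = n, ik k (c l) * wtl k l i) ≠ 0 := by
  have h1 : (∑ l ∈ s with l.length = n, ik k (c l) * wtl k l i) = algebraMap (P k) (K k)
      (∑ l ∈ s with l.length = n, MvPolynomial.monomial (ex l i) (c l)) := by
    rw [map_sum]
    refine Finset.sum_congr rfl ?_
    intro l _
    rw [wtl_eq, ik, RingHom.comp_apply, ← map_mul]
    congr 1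
    rw [MvPolynomial.C_mul_monomial, mul_one]
  rw [h1]
  intro h2
  have h3 : (∑ l ∈ s with l.length = n, MvPolynomial.monomial (ex l i) (c l) : P k) = 0 :=
    (IsFractionRing.injective (P k) (K k)) (by rw [h2, map_zero])
  have h4 := congrArg (MvPolynomial.coeff (ex l0 i)) h3
  rw [MvPolynomial.coeff_sum, MvPolynomial.coeff_zero] at h4
  rw [Finset.sum_eq_single l0] at h4
  · rw [MvPolynomial.coeff_monomial, if_pos rfl] at h4
    exact hc h4
  · intro l hl hne
    rw [MvPolynomial.coeff_monomial, if_neg]
    intro he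
    exact hne (ex_inj l l0 i ((Finset.mem_filter.1 hl).2.trans hn.symm) he)
  · intro h
    exact absurd (Finset.mem_filter.2 ⟨hl0, hn⟩) h

theorem lam_sum (s : Finset (List (Fin 2))) (c : List (Fin 2) → k) (v : ℤ → K k) :
    lam k (∑ l ∈ s, algebraMap k (A k) (c l) * wd k l) v
      = ∑ l ∈ s, ik k (c l) * lam k (wd k l) v := by
  classical
  induction s using Finset.induction_on with
  | empty =>
    have := lam_k (k := k) 0 v
    rwa [map_zero] at this
  | insert a s ha ih =>
    rw [Finset.sum_insert ha, Finset.sum_insert ha, lam_add, ih, lam_mul, lam_k, ep_k, add_zero]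

theorem gam_sum (s : Finset (List (Fin 2))) (c : List (Fin 2) → k) :
    gam k (∑ l ∈ s, algebraMap k (A k) (c l) * wd k l)
      = ∑ l ∈ s, rho k (algebraMap k (A k) (c l)) (gam k (wd k l)) := by
  classical
  induction s using Finset.induction_on with
  | empty =>
    have := gam_k (k := k) 0
    rwa [map_zero] at this
  | insert a s ha ih =>
    rw [Finset.sum_insert ha, Finset.sum_insert ha, gam_add, ih, gam_mul, gam_k, smul_zero,
      add_zero]

theorem rho_sum (s : Finset (List (Fin 2))) (c : List (Fin 2) → k) (v : ℤ → K k) (i : ℤ) :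
    rho k (∑ l ∈ s, algebraMap k (A k) (c l) * wd k l) v i
      = ∑ l ∈ s, ik k (c l) * (wtl k l i * v (i + l.length)) := by
  rw [map_sum, LinearMap.sum_apply, Finset.sum_apply]
  refine Finset.sum_congr rfl ?_
  intro l _
  rw [map_mul, AlgHom.commutes]
  show algebraMap k (Module.End (K k) (ℤ → K k)) (c l) (rho k (wd k l) v) i = _
  rw [Module.algebraMap_end_apply, Pi.smul_apply, rho_wd, ik_smul]

/-- the degree data of a nonzero element -/
theorem exists_lead (r : A k) (hr : r ≠ 0) : ∃ (n : ℕ) (S : ℤ → K k), Lead (rho k r) n S ∧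
    (∀ i, S i ≠ 0) ∧ (∀ v, Supp (n : ℤ) v → lam k r v = 0) ∧ Supp (-(n : ℤ)) (gam k r) := by
  classical
  obtain ⟨s, c, hc, rfl⟩ := exists_words r
  have hs : s.Nonempty := by
    by_contra h
    rw [Finset.not_nonempty_iff_eq_empty] at h
    exact hr (by rw [h]; rfl)
  obtain ⟨l0, hl0, hmax⟩ := Finset.exists_max_image s List.length hs
  refine ⟨l0.length, fun i => ∑ l ∈ s with l.length = l0.length, ik k (c l) * wtl k l i,
    ?_, ?_, ?_, ?_⟩
  · intro v i hv
    rw [rho_sum, Finset.sum_mul, Finset.sum_filter]
    refine Finset.sum_congr rfl ?_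
    intro l hl
    by_cases h : l.length = l0.length
    · rw [if_pos h, h, mul_assoc]
    · rw [if_neg h, hv _ (by have := hmax l hl; omega), mul_zero, mul_zero]
  · intro i
    exact lead_ne_zero s c _ l0 hl0 rfl (hc l0 hl0) i
  · intro v hv
    rw [lam_sum]
    refine Finset.sum_eq_zero ?_
    intro l hl
    rw [lam_wd l v (hv.mono (by exact_mod_cast hmax l hl)), mul_zero]
  · rw [gam_sum]
    intro i hi
    rw [Finset.sum_apply]
    refine Finset.sum_eq_zero ?_
    intro l hl
    rw [AlgHom.commutes, Module.algebraMap_end_apply, Pi.smul_apply,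
      gam_wd l i (by have := hmax l hl; omega), smul_zero]

end Pool.Agent.Brachy56
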