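import Mathlib
import Pool.Agent.Lib_helper56.Brachy.Free

/-!
The non-additive brachymorphism `r ↦ r(0) + ε (L(r) r⁻¹ C(r))_{0,-1}`.
-/

set_option autoImplicit false
set_option linter.unusedSectionVars false

namespace Pool.Agent.Brachy56

universe u

variable {k : Type u} [CommRing k] [IsDomain k]

/-- `r⁻¹ w` for `w` supported on `[j, ∞)` -/
theorem exists_inv (r : A k) (hr : r ≠ 0) : ∃ n : ℕ,
    (∀ (j : ℤ) (w : ℤ → K k), Supp j w → ∃ v, Supp (j + n) v ∧ rho k r v = w) ∧
    (∀ v, Supp (n : ℤ) v → lam k r v = 0) ∧ Supp (-(n : ℤ)) (gam k r) := by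
  obtain ⟨n, S, h1, h2, h3, h4⟩ := exists_lead r hr
  exact ⟨n, fun j w hw => h1.surj h2 hw, h3, h4⟩

theorem inj (r : A k) (hr : r ≠ 0) {j : ℤ} {v : ℤ → K k} (hv : Supp j v)
    (h : rho k r v = 0) : v = 0 := by
  obtain ⟨n, S, h1, h2, _, _⟩ := exists_lead r hr
  funext i
  exact h1.inj h2 (j := i + 1 - n) hv (by rw [h]; exact Supp.zero _) i (by omega)

theorem exists_v (r : A k) (hr : r ≠ 0) : ∃ v, Supp 0 v ∧ rho k r v = gam k r := by
  obtain ⟨n, h1, _, h3⟩ := exists_inv r hr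
  obtain ⟨v, hv, hv'⟩ := h1 _ _ h3
  exact ⟨v, hv.mono (by omega), hv'⟩

open Classical in
/-- `N r = (L(r) r⁻¹ C(r) e_{-1})_0` -/
noncomputable def N (r : A k) : K k :=
  if h : r = 0 then 0 else lam k r (exists_v r h).choose

theorem N_eq (r : A k) (hr : r ≠ 0) {j : ℤ} {v : ℤ → K k} (hv : Supp j v)
    (h : rho k r v = gam k r) : N r = lam k r v := by
  rw [N, dif_neg hr]
  obtain ⟨h1, h2⟩ := (exists_v r hr).choose_spec
  set u := (exists_v r hr).choose
  have h3 : u - v = 0 := inj r hr (j := min 0 j)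
    (Supp.sub (h1.mono (min_le_left _ _)) (hv.mono (min_le_right _ _)))
    (by rw [map_sub, h2, h, sub_self])
  rw [sub_eq_zero.1 h3]

theorem N_zero : N (0 : A k) = 0 := by rw [N, dif_pos rfl]

theorem N_k (c : k) : N (algebraMap k (A k) c) = 0 := by
  by_cases h : algebraMap k (A k) c = 0
  · rw [h, N_zero]
  · rw [N_eq _ h (Supp.zero 0) (by rw [map_zero, gam_k]), lam_k]

theorem N_mul (r s : A k) : N (r * s) = ep k r * N s + ep k s * N r := by
  by_cases hr : r = 0
  · subst hr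
    have : ep k 0 = 0 := by simp [ep]
    rw [zero_mul, N_zero, this]; ring
  by_cases hs : s = 0
  · subst hs
    have : ep k 0 = 0 := by simp [ep]
    rw [mul_zero, N_zero, this]; ring
  obtain ⟨vr, hvr, hr2⟩ := exists_v r hr
  obtain ⟨vs, hvs, hs2⟩ := exists_v s hs
  obtain ⟨m, h1, h2, _⟩ := exists_inv s hs
  obtain ⟨w, hw, hw2⟩ := h1 0 vr hvr
  have h3 : N (r * s) = lam k (r * s) (vs + ep k s • w) := by
    refine N_eq _ (mul_ne_zero hr hs) (j := 0) (hvs.add ((hw.mono (by omega)).smul _)) ?_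
    rw [map_mul, gam_mul, Module.End.mul_apply, map_add, map_add, map_smul, map_smul, hs2, hw2,
      hr2]
  rw [h3, lam_mul, map_add, map_smul, hs2, hw2, lam_vadd, lam_vadd, lam_vsmul, lam_vsmul,
    h2 w (hw.mono (by omega)), (rho_neg r _ (gam_neg s)).2, N_eq s hs hvs hs2, N_eq r hr hvr hr2]
  ring

theorem gam_one_add (r : A k) : gam k (1 + r) = gam k r := by
  have := gam_k (k := k) 1
  rw [map_one] at this
  rw [gam_add, this, zero_add]

theorem lam_one_add (r : A k) (v : ℤ → K k) : lam k (1 + r) v = lam k r v := by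
  have := lam_k (k := k) 1 v
  rw [map_one] at this
  rw [lam_add, this, zero_add]

theorem N_one_add (r : A k) : N (1 + r) = N r := by
  by_cases hr : r = 0
  · subst hr
    have := N_k (k := k) 1
    rw [map_one] at this
    rw [add_zero, this, N_zero]
  by_cases hs : 1 + r = 0
  · have h1 : r = algebraMap k (A k) (-1) := by
      rw [map_neg, map_one]
      exact (neg_eq_of_add_eq_zero_right hs).symm
    rw [hs, N_zero, h1, N_k]
  obtain ⟨vr, hvr, hr2⟩ := exists_v r hr
  obtain ⟨m, h1, h2, _⟩ := exists_inv (1 + r) hs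
  obtain ⟨w, hw, hw2⟩ := h1 0 vr hvr
  have h3 : rho k (1 + r) vr = vr + rho k r vr := by
    rw [map_add, map_one]; rfl
  rw [N_eq (1 + r) hs (j := 0) (hvr.sub (hw.mono (by omega))) (by
    rw [map_sub, hw2, h3, hr2, gam_one_add]; abel), lam_vsub, h2 w (hw.mono (by omega)), sub_zero,
    lam_one_add, N_eq r hr hvr hr2]

theorem N_x : N (FreeAlgebra.ι k (0 : Fin 2)) = 0 := by
  by_cases h : (FreeAlgebra.ι k (0 : Fin 2)) = 0
  · rw [h, N_zero]
  obtain ⟨v, hv, hv2⟩ := exists_v _ h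
  rw [N_eq _ h hv hv2, lam_ι, isy, if_pos rfl, zero_mul]

theorem gen_apply (a : Fin 2) (v : ℤ → K k) (i : ℤ) : gen k a v i = wt k a i * v (i + 1) := rfl

theorem N_y : N (FreeAlgebra.ι k (1 : Fin 2)) = 1 := by
  have h : (FreeAlgebra.ι k (1 : Fin 2)) ≠ 0 := FreeAlgebra.ι_ne_zero _
  have hs : Supp 0 (Pi.single 0 1 : ℤ → K k) := by
    intro i hi
    rw [Pi.single_apply, if_neg (by omega)]
  rw [N_eq _ h hs, lam_ι, isy, if_neg one_ne_zero, Pi.single_eq_same, mul_one]
  rw [rho_ι, gam_ι, isy, if_neg one_ne_zero, one_smul]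
  funext i
  rw [gen_apply, wt, if_neg one_ne_zero, one_mul, e0, Pi.single_apply, Pi.single_apply]
  by_cases hi : i = -1
  · rw [if_pos hi, if_pos (by omega)]
  · rw [if_neg hi, if_neg (by omega)]

variable (k) in
/-- the variable `z_{-1}` -/
noncomputable def z1 : K k := algebraMap (P k) (K k) (MvPolynomial.X (-1))

theorem z1_ne : (1 : K k) + z1 k ≠ 0 := by
  intro h
  have h1 : algebraMap (P k) (K k) (1 + MvPolynomial.X (-1)) = 0 := by
    rw [map_add, map_one]; exact h
  have h2 : (1 + MvPolynomial.X (-1) : P k) = 0 :=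
    (IsFractionRing.injective (P k) (K k)) (by rw [h1, map_zero])
  have h3 := congrArg MvPolynomial.constantCoeff h2
  simp at h3

theorem z1_ne_zero : z1 k ≠ 0 := by
  intro h
  have h2 : (MvPolynomial.X (-1) : P k) = 0 :=
    (IsFractionRing.injective (P k) (K k)) (by rw [map_zero]; exact h)
  exact MvPolynomial.X_ne_zero _ h2

theorem N_xy : N (FreeAlgebra.ι k (0 : Fin 2) + FreeAlgebra.ι k (1 : Fin 2)) = (1 + z1 k)⁻¹ := by
  have h : (FreeAlgebra.ι k (0 : Fin 2) + FreeAlgebra.ι k (1 : Fin 2)) ≠ 0 := by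
    intro h
    have h1 := congrArg (FreeAlgebra.lift k (fun a : Fin 2 => if a = 0 then (0 : k) else 1)) h
    simp [FreeAlgebra.lift_ι_apply] at h1
  have hs : Supp 0 (Pi.single 0 (1 + z1 k)⁻¹ : ℤ → K k) := by
    intro i hi
    rw [Pi.single_apply, if_neg (by omega)]
  rw [N_eq _ h hs, lam_add, lam_ι, lam_ι, isy, isy, if_neg one_ne_zero, if_pos rfl,
    Pi.single_eq_same, zero_mul, one_mul, zero_add]
  rw [map_add, rho_ι, rho_ι, gam_add, gam_ι, gam_ι, isy, isy, if_neg one_ne_zero, if_pos rfl,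
    one_smul, zero_smul, zero_add]
  funext i
  rw [LinearMap.add_apply, Pi.add_apply, gen_apply, gen_apply, wt, wt, if_neg one_ne_zero,
    if_pos rfl, one_mul, e0, Pi.single_apply, Pi.single_apply]
  by_cases hi : i = -1
  · rw [if_pos hi, if_pos (by omega), hi]
    have h1 := mul_inv_cancel₀ (z1_ne (k := k))
    rw [add_mul, one_mul, add_comm] at h1
    exact h1
  · rw [if_neg hi, if_neg (by omega)]
    ring

/-- the brachymorphism -/
noncomputable def F (r : A k) : DualNumber (K k) :=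
  TrivSqZeroExt.inl (ep k r) + TrivSqZeroExt.inr (N r)

theorem F_mul (r s : A k) : F (r * s) = F r * F s := by
  ext
  · simp [F, ep_mul]
  · simp only [F, TrivSqZeroExt.snd_add, TrivSqZeroExt.snd_inl, TrivSqZeroExt.snd_inr, zero_add,
      TrivSqZeroExt.snd_mul, TrivSqZeroExt.fst_add, TrivSqZeroExt.fst_inl, TrivSqZeroExt.fst_inr,
      add_zero, N_mul, smul_eq_mul, MulOpposite.smul_eq_mul_unop, MulOpposite.unop_op]
    ring

theorem F_one_add (r : A k) : F (1 + r) = 1 + F r := by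
  ext
  · simp [F, ep_add, ep_one]
  · simp [F, N_one_add]

theorem F_not_add : F (FreeAlgebra.ι k (0 : Fin 2) + FreeAlgebra.ι k (1 : Fin 2)) ≠
    F (FreeAlgebra.ι k (0 : Fin 2)) + F (FreeAlgebra.ι k (1 : Fin 2)) := by
  intro h
  have h1 := congrArg TrivSqZeroExt.snd h
  simp only [F, TrivSqZeroExt.snd_add, TrivSqZeroExt.snd_inl, TrivSqZeroExt.snd_inr, zero_add,
    N_x, N_y, N_xy] at h1
  rw [inv_eq_one] at h1
  exact z1_ne_zero (k := k) (by linear_combination h1)

end Pool.Agent.Brachy56
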